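import Mathlib

/-! # Two groups of order 273 with isomorphic subrack lattices and non-isomorphic conjugation
racks -/

namespace Pool.Agent.Results.MP_f3891b_al.Order273

/-- `S` is a subrack of the conjugation rack of the finite group `G` -/
def IsSubrack {G : Type*} [Group G] (S : Set G) : Prop :=
  ∀ x ∈ S, ∀ y ∈ S, x * y * x⁻¹ ∈ S

/-- The poset of subracks of `G`, ordered by inclusion. -/
abbrev Subracks (G : Type*) [Group G] : Type _ := {S : Set G // IsSubrack S}

/-- the conjugation racks of `G` and `H` are isomorphic -/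
def RackIso (G H : Type*) [Group G] [Group H] : Prop :=
  ∃ f : G ≃ H, ∀ x y : G, f (x * y * x⁻¹) = f x * f y * (f x)⁻¹

/-- The semidirect product `C₉₁ ⋊ C₃`, where the generator of `C₃` acts by multiplication
with `c`. -/
@[ext] structure Gr (c : ZMod 91) : Type where
  v : ZMod 91
  i : ZMod 3

/-- the conditions on the multiplier -/
structure Good (c : ZMod 91) : Prop where
  cube : c ^ 3 = 1
  unit : ∀ i : ZMod 3, i ≠ 0 → (1 - c ^ i.val) ^ 12 = 1

theorem good16 : Good 16 := ⟨by decide, by decide⟩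
theorem good9 : Good 9 := ⟨by decide, by decide⟩

instance : Fact (Good 16) := ⟨good16⟩
instance : Fact (Good 9) := ⟨good9⟩

namespace Gr

variable {c : ZMod 91} [hc : Fact (Good c)]

theorem pw_add (i j : ZMod 3) : c ^ (i + j).val = c ^ i.val * c ^ j.val := by
  rw [ZMod.val_add, ← pow_eq_pow_mod _ hc.out.cube, pow_add]

theorem pw_zero : c ^ (0 : ZMod 3).val = 1 := by simp

theorem pw_cube (i : ZMod 3) : (c ^ i.val) ^ 3 = 1 := by
  rw [← pow_mul, mul_comm, pow_mul, hc.out.cube, one_pow]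

theorem pw_neg (i : ZMod 3) : c ^ (-i).val * c ^ i.val = 1 := by
  rw [← pw_add, neg_add_cancel, pw_zero]

instance : Mul (Gr c) := ⟨fun x y => ⟨x.v + c ^ x.i.val * y.v, x.i + y.i⟩⟩
instance : One (Gr c) := ⟨⟨0, 0⟩⟩
instance : Inv (Gr c) := ⟨fun x => ⟨-(c ^ (-x.i).val * x.v), -x.i⟩⟩

@[simp] theorem mul_v (x y : Gr c) : (x * y).v = x.v + c ^ x.i.val * y.v := rfl
@[simp] theorem mul_i (x y : Gr c) : (x * y).i = x.i + y.i := rfl
@[simp] theorem one_v : (1 : Gr c).v = 0 := rfl
@[simp] theorem one_i : (1 : Gr c).i = 0 := rfl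
@[simp] theorem inv_v (x : Gr c) : (x⁻¹).v = -(c ^ (-x.i).val * x.v) := rfl
@[simp] theorem inv_i (x : Gr c) : (x⁻¹).i = -x.i := rfl

instance : Group (Gr c) where
  mul_assoc x y z := by
    ext1
    · simp only [mul_v, mul_i, pw_add]; ring
    · simp [add_assoc]
  one_mul x := by ext1 <;> simp
  mul_one x := by ext1 <;> simp
  inv_mul_cancel x := by
    ext1
    · simp
    · simp

omit hc in
/-- the obvious identification with pairs -/
def equivProd (c : ZMod 91) : Gr c ≃ ZMod 91 × ZMod 3 where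
  toFun x := (x.v, x.i)
  invFun x := ⟨x.1, x.2⟩
  left_inv _ := rfl
  right_inv _ := rfl

instance : Fintype (Gr c) := Fintype.ofEquiv _ (equivProd c).symm

theorem conj (x y : Gr c) :
    x * y * x⁻¹ = ⟨(1 - c ^ y.i.val) * x.v + c ^ x.i.val * y.v, y.i⟩ := by
  ext1
  · simp only [mul_v, mul_i, inv_v, pw_add]
    linear_combination (-(c ^ y.i.val) * x.v) * pw_neg (c := c) x.i
  · simp

end Gr

/-- the map on the kernel: the identity modulo `7` and the inversion modulo `13` -/
def g (w : ZMod 91) : ZMod 91 := 78 * w + 14 * w ^ 11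

theorem g_g : ∀ w, g (g w) = w := by decide +kernel
theorem g_16 : ∀ (i : ZMod 3) (w : ZMod 91), g (16 ^ i.val * w) = 9 ^ i.val * g w := by
  decide +kernel
theorem g_9 : ∀ (i : ZMod 3) (w : ZMod 91), g (9 ^ i.val * w) = 16 ^ i.val * g w := by
  decide +kernel
theorem g_mul : ∀ w : ZMod 91, w = (78 + 14 * w ^ 2) * g w := by decide +kernel
theorem g_zero : g 0 = 0 := by decide +kernel

/-- the bijection: on the kernel it is `g`, outside the kernel it preserves the fixed point and the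
angle of the rotations -/
def F (c d : ZMod 91) (x : Gr c) : Gr d :=
  if x.i = 0 then ⟨g x.v, 0⟩ else ⟨(1 - d ^ x.i.val) * ((1 - c ^ x.i.val) ^ 11 * x.v), x.i⟩

section
variable {c d : ZMod 91} [hc : Fact (Good c)] [hd : Fact (Good d)]

theorem F_F (x : Gr c) : F d c (F c d x) = x := by
  unfold F
  by_cases h : x.i = 0
  · simp only [h, if_true]
    rw [g_g]
    exact Gr.ext rfl h.symm
  · simp only [h, if_false]
    ext1
    · have h1 := hc.out.unit x.i h
      have h2 := hd.out.unit x.i h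
      simp only
      calc _ = (1 - c ^ x.i.val) ^ 12 * (1 - d ^ x.i.val) ^ 12 * x.v := by ring
        _ = x.v := by rw [h1, h2]; ring
    · rfl

theorem zmod_nat (x : ZMod 91) : ∃ n : ℕ, (n : ZMod 91) = x := ⟨x.val, ZMod.natCast_zmod_val x⟩

/-- closure under the translation by a kernel element -/
theorem trans_mem {S : Set (Gr d)} (hS : IsSubrack S) {v u : ZMod 91} {j : ZMod 3}
    (hv : (⟨v, 0⟩ : Gr d) ∈ S) (hu : (⟨u, j⟩ : Gr d) ∈ S) (μ : ZMod 91) :
    (⟨u + μ * ((1 - d ^ j.val) * v), j⟩ : Gr d) ∈ S := by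
  obtain ⟨n, rfl⟩ := zmod_nat μ
  induction n with
  | zero => simpa using hu
  | succ n ih =>
    have := hS _ hv _ ih
    rw [Gr.conj] at this
    simp only [Gr.pw_zero] at this
    convert this using 2
    push_cast
    ring

/-- the positions on the line through the centers of two rotations -/
theorem rot_mem {S : Set (Gr d)} (hS : IsSubrack S) {x y : ZMod 91} {i j : ZMod 3}
    (hi : i ≠ 0) (hj : j ≠ 0)
    (hx : (⟨(1 - d ^ i.val) * x, i⟩ : Gr d) ∈ S)
    (hy : (⟨(1 - d ^ j.val) * y, j⟩ : Gr d) ∈ S) (μ : ZMod 91) :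
    (⟨(1 - d ^ j.val) * (x + μ * (y - x)), j⟩ : Gr d) ∈ S := by
  set a := d ^ i.val with ha
  set b := d ^ j.val with hb
  have ha3 : a ^ 3 = 1 := Gr.pw_cube i
  have hb3 : b ^ 3 = 1 := Gr.pw_cube j
  have ha12 : (1 - a) ^ 12 = 1 := hd.out.unit i hi
  have hb12 : (1 - b) ^ 12 = 1 := hd.out.unit j hj
  let Q : ZMod 91 → Prop := fun μ => (⟨(1 - b) * (x + μ * (y - x)), j⟩ : Gr d) ∈ S
  have hA : ∀ μ, Q μ → Q (a * μ) := by
    intro μ h
    have := hS _ hx _ h
    rw [Gr.conj] at this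
    simp only [← ha, ← hb] at this
    have e : (1 - b) * ((1 - a) * x) + a * ((1 - b) * (x + μ * (y - x))) =
        (1 - b) * (x + a * μ * (y - x)) := by ring
    rw [e] at this
    exact this
  have hB : ∀ μ, Q μ → Q (1 + b * (μ - 1)) := by
    intro μ h
    have := hS _ hy _ h
    rw [Gr.conj] at this
    simp only [← hb] at this
    have e : (1 - b) * ((1 - b) * y) + b * ((1 - b) * (x + μ * (y - x))) =
        (1 - b) * (x + (1 + b * (μ - 1)) * (y - x)) := by ring
    rw [e] at this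
    exact this
  have hT : ∀ μ, Q μ → Q (μ - (1 - a) * (1 - b)) := by
    intro μ h
    have h1 := hA _ (hB _ (hA _ (hA _ (hB _ (hB _ h)))))
    have e : a * (1 + b * (a * (a * (1 + b * (1 + b * (μ - 1) - 1))) - 1)) =
        μ - (1 - a) * (1 - b) := by
      linear_combination (b + b ^ 3 * (μ - 1)) * ha3 + (μ - 1) * hb3
    rw [e] at h1
    exact h1
  have hN : ∀ n : ℕ, Q (1 - n * ((1 - a) * (1 - b))) := by
    intro n
    induction n with
    | zero =>
      change (⟨(1 - b) * (x + (1 - ((0 : ℕ) : ZMod 91) * ((1 - a) * (1 - b))) * (y - x)), j⟩ : Gr d) ∈ S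
      have e : (1 - b) * (x + (1 - ((0 : ℕ) : ZMod 91) * ((1 - a) * (1 - b))) * (y - x)) =
        (1 - b) * y := by push_cast; ring
      rw [e]
      exact hy
    | succ n ih =>
      have := hT _ ih
      have e : 1 - (n : ZMod 91) * ((1 - a) * (1 - b)) - (1 - a) * (1 - b) =
        1 - ((n + 1 : ℕ) : ZMod 91) * ((1 - a) * (1 - b)) := by push_cast; ring
      rw [e] at this
      exact this
  obtain ⟨n, hn⟩ := zmod_nat ((1 - μ) * ((1 - a) ^ 11 * (1 - b) ^ 11))
  have := hN n
  rw [hn] at this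
  have e : 1 - (1 - μ) * ((1 - a) ^ 11 * (1 - b) ^ 11) * ((1 - a) * (1 - b)) = μ := by
    linear_combination (-(1 - μ)) * (1 - b) ^ 12 * ha12 - (1 - μ) * hb12
  rw [e] at this
  exact this

theorem F_closed (hg : ∀ (i : ZMod 3) (w : ZMod 91), g (c ^ i.val * w) = d ^ i.val * g w)
    (x y : Gr c) (S : Set (Gr d)) (hS : IsSubrack S) (hx : F c d x ∈ S) (hy : F c d y ∈ S) :
    F c d (x * y * x⁻¹) ∈ S := by
  obtain ⟨v, i⟩ := x
  obtain ⟨w, j⟩ := y
  rw [Gr.conj]
  by_cases hi : i = 0 <;> by_cases hj : j = 0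
  · subst hi hj
    simpa [F] using hy
  · subst hi
    simp only [F, if_true] at hx
    simp only [F, hj, if_false] at hy ⊢
    have h1 := trans_mem hS hx hy (78 + 14 * v ^ 2)
    have h2 := hc.out.unit j hj
    have h3 := g_mul v
    convert h1 using 2
    simp only [Gr.pw_zero]
    linear_combination (1 - d ^ j.val) * v * h2 + (1 - d ^ j.val) * h3
  · subst hj
    have h1 := hS _ hx _ hy
    simp only [F, hi, if_true, if_false] at h1 ⊢
    rw [Gr.conj] at h1
    convert h1 using 2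
    simp only [Gr.pw_zero, sub_self, zero_mul, zero_add]
    rw [hg]
  · simp only [F, hi, hj, if_false] at hx hy ⊢
    have h1 := rot_mem hS hi hj hx hy (c ^ i.val)
    have h2 := hc.out.unit i hi
    have h3 := hc.out.unit j hj
    convert h1 using 2
    linear_combination (1 - d ^ j.val) * v * (h3 - h2)

end

theorem order_iso : Nonempty (Subracks (Gr 16) ≃o Subracks (Gr 9)) := by
  have h1 := F_closed (c := 16) (d := 9) g_16
  have h2 := F_closed (c := 9) (d := 16) g_9
  refine ⟨⟨⟨fun S => ⟨{y | F 9 16 y ∈ S.1}, ?_⟩, fun S => ⟨{y | F 16 9 y ∈ S.1}, ?_⟩, ?_, ?_⟩, ?_⟩⟩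
  · intro x hx y hy
    exact h2 x y S.1 S.2 hx hy
  · intro x hx y hy
    exact h1 x y S.1 S.2 hx hy
  · intro S
    apply Subtype.ext
    ext x
    change F 9 16 (F 16 9 x) ∈ S.1 ↔ _
    rw [F_F]
  · intro S
    apply Subtype.ext
    ext x
    change F 16 9 (F 9 16 x) ∈ S.1 ↔ _
    rw [F_F]
  · intro S T
    constructor
    · intro h x hx
      have : F 16 9 x ∈ {y | F 9 16 y ∈ S.1} := by
        change F 9 16 (F 16 9 x) ∈ S.1
        rwa [F_F]
      have h3 := h this
      change F 9 16 (F 16 9 x) ∈ T.1 at h3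
      rwa [F_F] at h3
    · intro h x hx
      exact h hx

/-- an isomorphism of conjugation racks onto a group with trivial center respects powers -/
theorem map_pow_of_rackIso {G H : Type*} [Group G] [Group H] (f : G ≃ H)
    (hf : ∀ x y : G, f (x * y * x⁻¹) = f x * f y * (f x)⁻¹)
    (hH : ∀ z z' : H, (∀ y, z * y * z⁻¹ = z' * y * z'⁻¹) → z = z') (x : G) (n : ℕ) :
    f (x ^ n) = f x ^ n := by
  apply hH
  intro h
  obtain ⟨y, rfl⟩ := f.surjective h
  rw [← hf]
  induction n with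
  | zero => simp
  | succ n ih =>
    have e1 : x ^ (n + 1) * y * (x ^ (n + 1))⁻¹ = x * (x ^ n * y * (x ^ n)⁻¹) * x⁻¹ := by
      rw [pow_succ']; group
    have e2 : f x ^ (n + 1) * f y * (f x ^ (n + 1))⁻¹ =
        f x * (f x ^ n * f y * (f x ^ n)⁻¹) * (f x)⁻¹ := by
      rw [pow_succ']; group
    rw [e1, e2, hf, ih]

theorem centerless (z z' : Gr 9) (h : ∀ y, z * y * z⁻¹ = z' * y * z'⁻¹) : z = z' := by
  have h1 := congrArg Gr.v (h ⟨1, 0⟩)
  have h2 := congrArg Gr.v (h ⟨0, 1⟩)
  rw [Gr.conj, Gr.conj] at h1 h2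
  simp only [Gr.pw_zero, sub_self, zero_mul, zero_add, mul_one, mul_zero, add_zero] at h1 h2
  have h3 : ∀ i j : ZMod 3, (9 : ZMod 91) ^ i.val = 9 ^ j.val → i = j := by decide +kernel
  have h4 : ∀ x y : ZMod 91, (1 - 9 ^ (1 : ZMod 3).val) * x = (1 - 9 ^ (1 : ZMod 3).val) * y →
      x = y := by decide +kernel
  exact Gr.ext (h4 _ _ h2) (h3 _ _ h1)

theorem pow_kernel (c : ZMod 91) [Fact (Good c)] (w : ZMod 91) (n : ℕ) :
    (⟨w, 0⟩ : Gr c) ^ n = ⟨n * w, 0⟩ := by
  induction n with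
  | zero =>
    rw [pow_zero]
    ext1
    · simp
    · rfl
  | succ n ih =>
    rw [pow_succ, ih]
    ext1
    · simp only [Gr.mul_v, Gr.pw_zero]; push_cast; ring
    · simp

theorem cube_rotation (c : ZMod 91) [hc : Fact (Good c)] (x : Gr c) (hx : x.i ≠ 0) :
    x ^ 3 = 1 := by
  have h1 := hc.out.unit x.i hx
  have h2 := Gr.pw_cube (c := c) x.i
  have h3 : x.i + x.i + x.i = 0 := by
    generalize x.i = i
    revert i
    decide
  rw [pow_succ, pow_succ, pow_one]
  ext1
  · simp only [Gr.mul_v, Gr.mul_i, Gr.pw_add, Gr.one_v]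
    set a := c ^ x.i.val
    have : x.v + a * x.v + a * a * x.v = (1 - a) ^ 11 * ((1 - a ^ 3) * x.v) := by
      linear_combination (-(x.v + a * x.v + a * a * x.v)) * h1
    rw [this, h2]
    ring
  · simp only [Gr.mul_i, Gr.one_i]
    exact h3

theorem not_rackIso : ¬ RackIso (Gr 16) (Gr 9) := by
  rintro ⟨f, hf⟩
  have hpow := map_pow_of_rackIso f hf centerless
  have hone : f 1 = 1 := by simpa using hpow 1 0
  set m : Gr 16 := ⟨1, 0⟩ with hm
  set y : Gr 16 := ⟨0, 1⟩ with hy
  have e1 : y * m * y⁻¹ = m ^ 16 := by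
    rw [Gr.conj, pow_kernel]
    ext1
    · simp [hm, hy]
      decide
    · rfl
  have e2 : m ^ 91 = 1 := by
    rw [pow_kernel]
    ext1
    · simp only [Gr.one_v]; decide
    · rfl
  have e3 : m ^ 7 ≠ 1 := by
    rw [pow_kernel]
    intro h
    have := congrArg Gr.v h
    revert this
    simp only [Gr.one_v]
    decide
  have e4 : m ^ 13 ≠ 1 := by
    rw [pow_kernel]
    intro h
    have := congrArg Gr.v h
    revert this
    simp only [Gr.one_v]
    decide
  have f1 : f y * f m * (f y)⁻¹ = f m ^ 16 := by rw [← hf, e1, hpow]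
  have f2 : f m ^ 91 = 1 := by rw [← hpow, e2, hone]
  have f3 : f m ^ 7 ≠ 1 := fun h => e3 (f.injective (by rw [hpow, h, hone]))
  have f4 : f m ^ 13 ≠ 1 := fun h => e4 (f.injective (by rw [hpow, h, hone]))
  by_cases hi : (f m).i = 0
  · have e : f m = ⟨(f m).v, 0⟩ := Gr.ext rfl hi
    generalize (f m).v = w at e
    rw [e, pow_kernel] at f1 f3 f4
    rw [Gr.conj] at f1
    have g1 := congrArg Gr.v f1
    simp only [Gr.pw_zero, sub_self, zero_mul, zero_add] at g1
    have key : ∀ (i : ZMod 3) (w : ZMod 91), 9 ^ i.val * w = ((16 : ℕ) : ZMod 91) * w →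
        ((7 : ℕ) : ZMod 91) * w = 0 ∨ ((13 : ℕ) : ZMod 91) * w = 0 := by decide +kernel
    rcases key _ _ g1 with h | h
    · exact f3 (by rw [h]; rfl)
    · exact f4 (by rw [h]; rfl)
  · have h3 := cube_rotation 9 (f m) hi
    have h4 : f m ^ 91 = f m := by
      calc f m ^ 91 = (f m ^ 3) ^ 30 * f m := by rw [← pow_mul, ← pow_succ]
        _ = f m := by rw [h3, one_pow, one_mul]
    rw [h4] at f2
    exact f3 (by rw [f2, one_pow])

/-- **The answer to Q1 is positive.** -/
theorem result : ∃ (G H : Type) (_ : Group G) (_ : Group H), Finite G ∧ Finite H ∧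
    Nonempty (Subracks G ≃o Subracks H) ∧ ¬ RackIso G H :=
  ⟨Gr 16, Gr 9, inferInstance, inferInstance, inferInstance, inferInstance, order_iso,
    not_rackIso⟩

end Pool.Agent.Results.MP_f3891b_al.Order273
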